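import Mathlib
import Pool.Agent.Helper78.EC.Use
import Pool.Graph.R_seed8.Y918.GB.Mat
import Pool.Graph.R_seed8.H297R2.Density

/-!
# Logarithms without relations of bounded degree over a given space
-/

set_option autoImplicit false

namespace Pool.Agent.Helper78.RK

open Module Set
open Pool.Agent.Y918.GB (RelI)

/-- There are logarithms of algebraic numbers without nonzero polynomial relation of degree at most `D`
with coefficients in a given space of finite dimension over the algebraic numbers. -/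
theorem exists_free (s D : ℕ) (W : Submodule (algebraicClosure ℚ ℂ) ℂ)
    [FiniteDimensional (algebraicClosure ℚ ℂ) W] :
    ∃ w : Fin s → ℂ, (∀ k, IsAlgebraic ℚ (Complex.exp (w k))) ∧
      ∀ P : MvPolynomial (Fin s) ℂ, (∀ M, P.coeff M ∈ W) → (∀ i, P.degreeOf i ≤ D) →
        MvPolynomial.eval w P = 0 → P = 0 := by
  classical
  obtain ⟨k₀, C, δ, hδ, h⟩ := Pool.Agent.Y918.GB.logs 0 s D (finrank (algebraicClosure ℚ ℂ) W)
  let k := k₀ + 1
  have hk : (0 : ℝ) < δ * k := by positivity
  obtain ⟨M, hM1, hMC⟩ : ∃ M : ℕ, 1 ≤ M ∧ (C : ℝ) < (M : ℝ) ^ (δ * k) := by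
    have h1 := (tendsto_rpow_atTop hk).comp (tendsto_natCast_atTop_atTop (R := ℝ))
    obtain ⟨M₀, hM₀⟩ := Filter.eventually_atTop.1 (h1.eventually (Filter.eventually_gt_atTop (C : ℝ)))
    exact ⟨max M₀ 1, le_max_right _ _, hM₀ _ (le_max_left _ _)⟩
  let A : Finset ℚ := (Finset.range M).image (fun n : ℕ => (n : ℚ))
  have hAc : A.card = M := by
    rw [Finset.card_image_of_injective _ Nat.cast_injective, Finset.card_range]
  have hAne : A.Nonempty := by
    rw [← Finset.card_pos, hAc]
    omega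
  let y : Fin s → Fin k → ℂ := fun _ r => (Real.log (Nat.nth Nat.Prime r) : ℂ)
  have hy : ∀ j, LinearIndependent ℚ (y j) := fun j =>
    Pool.Agent.H297R2.linearIndependent_log_prime (fun r : Fin k => Nat.nth Nat.Prime r)
      (fun r => Nat.prime_nth_prime _)
      (fun a b h => Fin.ext (Nat.nth_injective Nat.infinite_setOfPred_prime h))
  have hyalg : ∀ j r, IsAlgebraic ℚ (Complex.exp (y j r)) := by
    intro j r
    have h1 : Complex.exp (y j r) = ((Nat.nth Nat.Prime r : ℕ) : ℂ) := by
      change Complex.exp (Real.log (Nat.nth Nat.Prime r) : ℂ) = _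
      rw [← Complex.ofReal_exp, Real.exp_log (by exact_mod_cast (Nat.prime_nth_prime _).pos)]
      norm_cast
    rw [h1]
    exact isAlgebraic_algebraMap ((Nat.nth Nat.Prime r : ℕ) : ℚ)
  have hx : ∀ j : Fin s, LinearIndependent ℚ
      (Fin.cons 1 (fun i : Fin 0 => (i.elim0 : ℂ)) : Fin (0 + 1) → ℂ) := by
    intro j
    have h1 : LinearIndependent ℚ (fun _ : Fin 1 => (1 : ℂ)) :=
      (linearIndependent_unique_iff (v := fun _ : Fin 1 => (1 : ℂ))).2 one_ne_zero
    have h2 : (Fin.cons 1 (fun i : Fin 0 => (i.elim0 : ℂ)) : Fin (0 + 1) → ℂ) =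
        fun _ : Fin 1 => (1 : ℂ) := by
      funext i
      have : i = 0 := Subsingleton.elim (α := Fin 1) _ _
      rw [this]
      rfl
    rw [h2]
    exact h1
  have h1 := h k (by omega) (fun _ i => i.elim0) y hx hy hyalg A hAne W inferInstance le_rfl
    (fun _ => 0) (fun _ i => i.elim0)
  obtain ⟨a, ha, hna⟩ : ∃ a ∈ Fintype.piFinset fun _ : Fin s => Fintype.piFinset fun _ : Fin k => A,
      ¬ RelI W D (fun p : Fin s × Option (Fin 0) =>
        p.2.elim ((0 : ℂ) + ∑ r, (a p.1 r : ℂ) * y p.1 r)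
        (fun l => Complex.exp ((l.elim0 : ℂ) + (l.elim0 : ℂ) * ∑ r, (a p.1 r : ℂ) * y p.1 r))) := by
    by_contra hcon
    push Not at hcon
    rw [Finset.filter_true_of_mem hcon] at h1
    rw [Fintype.card_piFinset_const, Fintype.card_piFinset_const, hAc] at h1
    have hM0 : (0 : ℝ) < M := by exact_mod_cast hM1
    have h2 : (((M ^ k) ^ s : ℕ) : ℝ) = (M : ℝ) ^ ((s * k : ℝ) - δ * k) * (M : ℝ) ^ (δ * k) := by
      rw [← Real.rpow_add hM0, sub_add_cancel]
      push_cast
      rw [← pow_mul, ← Real.rpow_natCast]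
      congr 1
      push_cast
      ring
    rw [h2, mul_comm (C : ℝ)] at h1
    have h3 : (0 : ℝ) < (M : ℝ) ^ ((s * k : ℝ) - δ * k) := Real.rpow_pos_of_pos hM0 _
    have h4 := le_of_mul_le_mul_left h1 h3
    exact absurd h4 (not_le.2 hMC)
  refine ⟨fun j => ∑ r, (a j r : ℂ) * y j r, fun j => Pool.Agent.Helper78.EC.Use.exp_sum (hyalg j) (a j),
    fun P hP hD h0 => ?_⟩
  by_contra hne
  apply hna
  let e : Fin s → Fin s × Option (Fin 0) := fun i => (i, none)
  have he : Function.Injective e := fun i j hij => congrArg Prod.fst hij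
  have hsurj : ∀ q, ∃ i, e i = q := by
    rintro ⟨i, o⟩
    refine ⟨i, ?_⟩
    rcases o with _ | o
    · rfl
    · exact o.elim0
  refine ⟨MvPolynomial.rename e P, ?_, ?_, ?_, ?_⟩
  · intro h5
    exact hne (MvPolynomial.rename_injective e he (by rw [h5, map_zero]))
  · intro M'
    by_cases hM' : ∃ u, Finsupp.mapDomain e u = M' 
    · obtain ⟨u, rfl⟩ := hM'
      rw [MvPolynomial.coeff_rename_mapDomain e he]
      exact hP u
    · rw [MvPolynomial.coeff_rename_eq_zero e P M' (fun u hu => absurd ⟨u, hu⟩ hM')]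
      exact zero_mem _
  · intro q
    obtain ⟨i, rfl⟩ := hsurj q
    rw [MvPolynomial.degreeOf_rename_of_injective he]
    exact hD i
  · rw [MvPolynomial.eval_rename]
    refine Eq.trans ?_ h0
    congr 2
    funext i
    simp [e]

end Pool.Agent.Helper78.RK
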