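import Mathlib
import Pool.Agent.Helper78.EC.Str

/-!
# Specialisation of linear forms in logarithms over generic fields
-/

set_option autoImplicit false

namespace Pool.Agent.Helper78.RK

open Module Set MvPolynomial
open Pool.Agent.Helper78.SC Pool.Agent.Helper78.EC
open Pool.Agent.Helper78.EC.Closure Pool.Agent.Helper78.EC.Generic
open Pool.Agent.Helper78.EC.Disj Pool.Agent.Helper78.EC.Str
open scoped TensorProduct

variable {m : ℕ} {t : Fin m → ℂ}

/-- **Linear disjointness for vectors.** -/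
theorem vec_disj {J Q : Type} [Fintype J] (ht : Gen ⊥ t) (y : J → Q → ℂ)
    (hy : ∀ j q, y j q ∈ LF t) (hli : LinearIndependent QB y) : LinearIndependent (Kt t) y := by
  classical
  rw [Fintype.linearIndependent_iff]
  intro κ hκ
  let V : Submodule QB ℂ := Submodule.span QB (range (fun j => (κ j : ℂ)))
  have hfin : FiniteDimensional QB V := FiniteDimensional.span_of_finite QB (finite_range _)
  have hVK : ∀ v ∈ V, v ∈ Kt t := by
    intro v hv
    induction hv using Submodule.span_induction with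
    | mem a ha =>
      obtain ⟨j, rfl⟩ := ha
      exact (κ j).2
    | zero => exact zero_mem _
    | add a b _ _ iha ihb => exact add_mem iha ihb
    | smul c a _ iha =>
      rw [Algebra.smul_def]
      exact mul_mem (QB_le t c.2) iha
  let b := finBasis QB V
  let e : J → V := fun j => ⟨(κ j : ℂ), Submodule.subset_span ⟨j, rfl⟩⟩
  have hrep : ∀ j, (κ j : ℂ) = ∑ i, ((b.repr (e j) i : QB) : ℂ) * (b i : ℂ) := by
    intro j
    have h1 := congrArg (fun x : V => (x : ℂ)) (b.sum_repr (e j))
    change ((∑ q, b.repr (e j) q • b q : V) : ℂ) = (κ j : ℂ) at h1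
    rw [← h1, Submodule.coe_sum]
    rfl
  have hbli : LinearIndependent QB (fun i => ((b i : V) : ℂ)) :=
    b.linearIndependent.map' V.subtype (Submodule.ker_subtype V)
  have h1 : ∀ q i, ∑ j, ((b.repr (e j) i : QB) : ℂ) * y j q = 0 := by
    intro q
    apply Str.disjoint ht (fun i => ((b i : V) : ℂ)) _ (fun i => hVK _ (b i).2)
      (fun i => sum_mem (fun j _ => mul_mem (QB_le_LF (Subtype.property _)) (hy j q))) hbli
    have h2 := congrFun hκ q
    rw [Finset.sum_apply] at h2
    rw [Pi.zero_apply] at h2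
    rw [← h2]
    simp only [Finset.mul_sum]
    rw [Finset.sum_comm]
    refine Finset.sum_congr rfl (fun j _ => ?_)
    change _ = (κ j : ℂ) * y j q
    rw [hrep j, Finset.sum_mul]
    exact Finset.sum_congr rfl (fun i _ => by ring)
  have h2 : ∀ i j, b.repr (e j) i = 0 := by
    intro i
    apply Fintype.linearIndependent_iff.1 hli (fun j => b.repr (e j) i)
    funext q
    rw [Finset.sum_apply, Pi.zero_apply, ← h1 q i]
    exact Finset.sum_congr rfl (fun j _ => rfl)
  intro j
  apply Subtype.ext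
  rw [hrep j]
  simp only [h2]
  simp

/-- scalar version -/
theorem num_disj {J : Type} [Fintype J] (ht : Gen ⊥ t) (y : J → ℂ)
    (hy : ∀ j, y j ∈ LF t) (hli : LinearIndependent QB y) : LinearIndependent (Kt t) y := by
  have h1 := vec_disj (Q := Unit) ht (fun j _ => y j) (fun j _ => hy j) (by
    rw [Fintype.linearIndependent_iff] at hli ⊢
    intro c hc
    apply hli c
    have := congrFun hc ()
    rw [Finset.sum_apply] at this
    exact this)
  rw [Fintype.linearIndependent_iff] at h1 ⊢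
  intro c hc
  apply h1 c
  funext q
  rw [Finset.sum_apply]
  exact hc

/-- independent families have dual families -/
theorem dual {K : Type*} [Field K] {J : Type} [Fintype J] {ν : Type*} [Fintype ν] (C : J → ν → K)
    (hC : LinearIndependent K C) : ∃ G : ν → J → K, ∀ c : J → K, ∀ j,
      ∑ n, (∑ i, c i * C i n) * G n j = c j := by
  classical
  let f : (J → K) →ₗ[K] (ν → K) := Fintype.linearCombination K C
  have hf : LinearMap.ker f = ⊥ := by
    rw [LinearMap.ker_eq_bot']
    intro v hv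
    funext i
    exact Fintype.linearIndependent_iff.1 hC v (by
      rw [← hv]
      exact (Fintype.linearCombination_apply K C v).symm) i
  obtain ⟨g, hg⟩ := f.exists_leftInverse_of_injective hf
  refine ⟨fun n i => g (Pi.single n 1) i, fun c j => ?_⟩
  have h1 : g (f c) = c := LinearMap.congr_fun hg c
  have h2 : f c = ∑ n, (∑ i, c i * C i n) • (Pi.single n (1 : K) : ν → K) := by
    funext n
    rw [Fintype.linearCombination_apply, Finset.sum_apply, Finset.sum_apply,
      Finset.sum_eq_single n]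
    · rw [Pi.smul_apply, Pi.single_eq_same, smul_eq_mul, mul_one]
      rfl
    · intro j _ hj
      rw [Pi.smul_apply, Pi.single_eq_of_ne (Ne.symm hj), smul_zero]
    · intro h
      exact absurd (Finset.mem_univ _) h
  conv_rhs => rw [← h1, h2, map_sum, Finset.sum_apply]
  simp only [map_smul, Pi.smul_apply, smul_eq_mul]

section spec

variable {N : Type} [CommRing N] [Algebra QB N] (R : Subalgebra QB ℂ)

/-- evaluation on the tensor product -/
noncomputable def pm (θ : R →ₐ[QB] ℂ) (ψ : N →ₐ[QB] ℂ) : R ⊗[QB] N →ₐ[QB] ℂ :=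
  Algebra.TensorProduct.productMap θ ψ

variable {κ : Type} (b : Basis κ QB N)

/-- the coordinates -/
noncomputable def co (x : R ⊗[QB] N) : κ →₀ R := (Algebra.TensorProduct.basis R b).repr x

theorem co_inj {x : R ⊗[QB] N} (h : co R b x = 0) : x = 0 := by
  apply (Algebra.TensorProduct.basis R b).repr.injective
  rw [map_zero]
  exact h

theorem pm_eq (θ : R →ₐ[QB] ℂ) (ψ : N →ₐ[QB] ℂ) (x : R ⊗[QB] N) (T : Finset κ)
    (hT : (co R b x).support ⊆ T) :
    pm R θ ψ x = ∑ i : T, θ (co R b x i) * ψ (b i) := by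
  have h1 : x = ∑ i ∈ T, co R b x i • Algebra.TensorProduct.basis R b i := by
    conv_lhs => rw [← (Algebra.TensorProduct.basis R b).linearCombination_repr x]
    rw [Finsupp.linearCombination_apply, Finsupp.sum]
    exact Finset.sum_subset hT (fun i _ hi => by
      have h2 : (Algebra.TensorProduct.basis R b).repr x i = 0 := Finsupp.notMem_support_iff.1 hi
      rw [h2, zero_smul])
  conv_lhs => rw [h1]
  rw [map_sum, ← Finset.sum_coe_sort T]
  refine Finset.sum_congr rfl (fun i _ => ?_)
  have h2 : Algebra.TensorProduct.basis R b i = 1 ⊗ₜ b i := Algebra.TensorProduct.basis_apply _ _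
  rw [h2, TensorProduct.smul_tmul', smul_eq_mul, mul_one]
  unfold pm
  rw [Algebra.TensorProduct.productMap_apply_tmul]

/-- independence of the values of the basis -/
theorem psi_li (ht : Gen ⊥ t) (ψ : N →ₐ[QB] ℂ) (hinj : Function.Injective ψ)
    (hmem : ∀ n, ψ n ∈ LF t) (T : Finset κ) :
    LinearIndependent (Kt t) (fun i : T => ψ (b i)) := by
  have h1 : LinearIndependent QB (fun i : T => b i) :=
    b.linearIndependent.comp _ Subtype.val_injective
  have h2 := h1.map' ψ.toLinearMap (LinearMap.ker_eq_bot.2 hinj)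
  exact num_disj ht (fun i : T => ψ (b i)) (fun i => hmem _) h2

/-- relations are preserved -/
theorem pm_zero (hR : ∀ r ∈ R, r ∈ Kt t) (ht : Gen ⊥ t) (ψ : N →ₐ[QB] ℂ)
    (hinj : Function.Injective ψ) (hmem : ∀ n, ψ n ∈ LF t) (x : R ⊗[QB] N)
    (hx : pm R R.val ψ x = 0) : x = 0 := by
  let b := Basis.ofVectorSpace QB N
  apply co_inj R b
  rw [pm_eq R b R.val ψ x _ le_rfl] at hx
  have h1 := psi_li b ht ψ hinj hmem (co R b x).support
  rw [Fintype.linearIndependent_iff] at h1
  have h2 := h1 (fun i => ⟨(co R b x i : ℂ), hR _ (Subtype.property _)⟩) hx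
  ext i
  by_cases hi : i ∈ (co R b x).support
  · have h3 := congrArg (fun w : Kt t => (w : ℂ)) (h2 ⟨i, hi⟩)
    exact h3
  · exact congrArg (fun w : R => (w : ℂ)) (Finsupp.notMem_support_iff.1 hi)

section fam

variable {J Q : Type} [Fintype J] [Fintype Q]

omit [Fintype J] [Fintype Q] in
/-- a common support -/
theorem exists_supp [Finite J] [Finite Q] (x : J → Q → R ⊗[QB] N) :
    ∃ T : Finset κ, ∀ j q, (co R b (x j q)).support ⊆ T := by
  classical
  have h1 : (⋃ n : J × Q, ((co R b (x n.1 n.2)).support : Set κ)).Finite :=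
    Set.finite_iUnion (fun n => Finset.finite_toSet _)
  refine ⟨h1.toFinset, fun j q i hi => ?_⟩
  rw [Set.Finite.mem_toFinset, Set.mem_iUnion]
  exact ⟨(j, q), hi⟩

omit [Fintype Q] in
theorem pm_comb (θ : R →ₐ[QB] ℂ) (ψ : N →ₐ[QB] ℂ) (x : J → Q → R ⊗[QB] N) (T : Finset κ)
    (hT : ∀ j q, (co R b (x j q)).support ⊆ T) (c : J → ℂ) (q : Q) :
    ∑ j, c j * pm R θ ψ (x j q) = ∑ i : T, (∑ j, c j * θ (co R b (x j q) i)) * ψ (b i) := by
  simp only [pm_eq R b θ ψ _ T (hT _ _), Finset.mul_sum, Finset.sum_mul]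
  rw [Finset.sum_comm]
  exact Finset.sum_congr rfl (fun _ _ => Finset.sum_congr rfl (fun _ _ => by ring))

theorem co_li (hR : ∀ r ∈ R, r ∈ Kt t) (ψ : N →ₐ[QB] ℂ) (x : J → Q → R ⊗[QB] N) (T : Finset κ)
    (hT : ∀ j q, (co R b (x j q)).support ⊆ T)
    (hx : LinearIndependent (Kt t) (fun j q => pm R R.val ψ (x j q))) :
    LinearIndependent (Kt t) (fun j (n : Q × T) =>
      (⟨(co R b (x j n.1) n.2 : ℂ), hR _ (Subtype.property _)⟩ : Kt t)) := by
  rw [Fintype.linearIndependent_iff] at hx ⊢
  intro c hc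
  apply hx c
  funext q
  rw [Finset.sum_apply, Pi.zero_apply]
  have h1 := pm_comb R b R.val ψ x T hT (fun j => (c j : ℂ)) q
  refine Eq.trans h1 ?_
  refine Finset.sum_eq_zero (fun i _ => ?_)
  have h2 := congrArg (fun w : Kt t => (w : ℂ)) (congrFun hc (q, i))
  rw [Finset.sum_apply] at h2
  have h3 : ((∑ j, c j * (⟨(co R b (x j q) i : ℂ), hR _ (Subtype.property _)⟩ : Kt t) : Kt t) : ℂ) =
    ((0 : Kt t) : ℂ) := h2
  rw [IntermediateField.coe_sum] at h3
  have h4 : ∑ j, (c j : ℂ) * (co R b (x j q) i : ℂ) = 0 := h3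
  have h5 : ∑ j, (c j : ℂ) * R.val (co R b (x j q) i) = 0 := h4
  rw [h5, zero_mul]

/-- homomorphisms which preserve the independence of finitely many vectors -/
theorem exists_hom_li (hR : ∀ r ∈ R, r ∈ Kt t) (S : Finset ℂ)
    (hRS : R = Algebra.adjoin QB (S : Set ℂ)) {ν : Type} [Fintype ν] (C : J → ν → R)
    (hC : LinearIndependent (Kt t) (fun j n => (⟨(C j n : ℂ), hR _ (Subtype.property _)⟩ : Kt t))) :
    ∃ φ : R →ₐ[QB] QB, ∀ c : J → QB, (∀ n, ∑ j, c j * φ (C j n) = 0) → c = 0 := by
  classical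
  obtain ⟨G, hG⟩ := dual _ hC
  let S' : Finset ℂ := S ∪ Finset.univ.image (fun n : ν × J => (G n.1 n.2 : ℂ))
  obtain ⟨φ'⟩ := exists_hom S'
  have hle : R ≤ Algebra.adjoin QB (S' : Set ℂ) := by
    rw [hRS]
    apply Algebra.adjoin_mono
    intro z hz
    exact Finset.mem_coe.2 (Finset.mem_union_left _ hz)
  let G' : ν → J → Algebra.adjoin QB (S' : Set ℂ) := fun n j => ⟨(G n j : ℂ),
    Algebra.subset_adjoin (Finset.mem_coe.2 (Finset.mem_union_right _
      (Finset.mem_image_of_mem _ (Finset.mem_univ (n, j)))))⟩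
  refine ⟨φ'.comp (Subalgebra.inclusion hle), fun c hc => ?_⟩
  have hdual : ∀ i j, ∑ n, φ' (Subalgebra.inclusion hle (C i n)) * φ' (G' n j) =
      if i = j then 1 else 0 := by
    intro i j
    have h1 := hG (Pi.single i 1) j
    have h2 : ∀ n, ∑ i', (Pi.single i (1 : Kt t) : J → Kt t) i' *
        (⟨(C i' n : ℂ), hR _ (Subtype.property _)⟩ : Kt t) =
        ⟨(C i n : ℂ), hR _ (Subtype.property _)⟩ := by
      intro n
      rw [Finset.sum_eq_single i]
      · rw [Pi.single_eq_same, one_mul]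
      · intro i' _ hi'
        rw [Pi.single_eq_of_ne hi', zero_mul]
      · intro h
        exact absurd (Finset.mem_univ _) h
    simp only [h2] at h1
    have h4 := congrArg (fun w : Kt t => (w : ℂ)) h1
    have h4' : ∑ n, (C i n : ℂ) * (G n j : ℂ) = if i = j then 1 else 0 := by
      refine Eq.trans ?_ (h4.trans ?_)
      · change _ = ((∑ n, (⟨(C i n : ℂ), hR _ (Subtype.property _)⟩ : Kt t) * G n j : Kt t) : ℂ)
        rw [IntermediateField.coe_sum]
        rfl
      · rw [Pi.single_apply]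
        by_cases hij : i = j
        · rw [if_pos hij, if_pos hij.symm]
          rfl
        · rw [if_neg hij, if_neg (Ne.symm hij)]
          rfl
    have h3 : ∑ n, (Subalgebra.inclusion hle (C i n)) * G' n j = if i = j then 1 else 0 := by
      apply Subtype.ext
      rw [AddSubmonoidClass.coe_finsetSum]
      refine Eq.trans h4' ?_
      split_ifs <;> rfl
    have h5 := congrArg φ' h3
    rw [map_sum] at h5
    simp only [map_mul] at h5
    rw [h5]
    split_ifs <;> simp
  funext j
  have h2 : ∑ n, (∑ i, c i * φ' (Subalgebra.inclusion hle (C i n))) * φ' (G' n j) = c j := by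
    simp only [Finset.sum_mul]
    rw [Finset.sum_comm]
    simp only [mul_assoc, ← Finset.mul_sum, hdual]
    simp
  rw [← h2]
  exact Finset.sum_eq_zero (fun n _ => by
    have h3 : ∑ i, c i * φ' (Subalgebra.inclusion hle (C i n)) = 0 := hc n
    rw [h3, zero_mul])

/-- **Specialisation.** -/
theorem spec (hR : ∀ r ∈ R, r ∈ Kt t) (S : Finset ℂ)
    (hRS : R = Algebra.adjoin QB (S : Set ℂ)) (ψ : N →ₐ[QB] ℂ) (x : J → Q → R ⊗[QB] N)
    (hx : LinearIndependent (Kt t) (fun j q => pm R R.val ψ (x j q))) :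
    ∃ (T : Finset κ) (φ : R →ₐ[QB] QB), ∀ ψ' : N →ₐ[QB] ℂ,
      LinearIndependent QB (fun i : T => ψ' (b i)) →
      LinearIndependent QB (fun j q => pm R ((Algebra.ofId QB ℂ).comp φ) ψ' (x j q)) := by
  obtain ⟨T, hT⟩ := exists_supp R b x
  obtain ⟨φ, hφ⟩ := exists_hom_li R hR S hRS (fun j (n : Q × T) => co R b (x j n.1) n.2)
    (co_li R b hR ψ x T hT hx)
  refine ⟨T, φ, fun ψ' hψ' => ?_⟩
  rw [Fintype.linearIndependent_iff] at hψ' ⊢
  intro c hc
  have h0 := hφ c (by
    rintro ⟨q, i⟩
    refine hψ' (fun i => ∑ j, c j * φ (co R b (x j q) i)) ?_ i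
    have h2 := congrFun hc q
    rw [Finset.sum_apply, Pi.zero_apply] at h2
    have h1 := pm_comb R b ((Algebra.ofId QB ℂ).comp φ) ψ' x T hT (fun j => (c j : ℂ)) q
    have h3 : ∑ j, (c j : ℂ) * pm R ((Algebra.ofId QB ℂ).comp φ) ψ' (x j q) = 0 := h2
    rw [h1] at h3
    rw [← h3]
    refine Finset.sum_congr rfl (fun i _ => ?_)
    rw [Algebra.smul_def]
    congr 1
    change ((∑ j, c j * φ (co R b (x j q) i) : QB) : ℂ) = _
    rw [IntermediateField.coe_sum]
    rfl)
  intro j
  rw [h0]
  rfl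

end fam

end spec

end Pool.Agent.Helper78.RK
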