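import Mathlib
import Pool.Agent.Helper78.RK.Spec
import Pool.Agent.Helper78.RK.Free

/-!
# Specialisation of families of linear forms in logarithms over generic fields
-/

set_option autoImplicit false

namespace Pool.Agent.Helper78.RK

open Module Set MvPolynomial
open Pool.Agent.Helper78.SC Pool.Agent.Helper78.EC
open Pool.Agent.Helper78.EC.Closure Pool.Agent.Helper78.EC.Generic
open Pool.Agent.Helper78.EC.Disj Pool.Agent.Helper78.EC.Str
open scoped TensorProduct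

variable {m : ℕ} {t : Fin m → ℂ}

/-- index set of a basis -/
def Idx (N : Type) [CommRing N] [Algebra QB N] : Type := Basis.ofVectorSpaceIndex QB N

/-- a basis -/
noncomputable def basN (N : Type) [CommRing N] [Algebra QB N] : Basis (Idx N) QB N :=
  Basis.ofVectorSpace QB N

/-- injectivity on a span -/
theorem li_of_inj {N κ : Type} [CommRing N] [Algebra QB N] (b : Basis κ QB N) (T : Finset κ)
    (ψ : N →ₐ[QB] ℂ) (h : ∀ n ∈ Submodule.span QB (b '' (T : Set κ)), ψ n = 0 → n = 0) :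
    LinearIndependent QB (fun i : T => ψ (b i)) := by
  have hb' : LinearIndependent QB (fun i : T => b i) :=
    b.linearIndependent.comp _ Subtype.val_injective
  rw [Fintype.linearIndependent_iff]
  intro c hc
  apply Fintype.linearIndependent_iff.1 hb' c
  apply h
  · exact sum_mem (fun i _ => Submodule.smul_mem _ _ (Submodule.subset_span ⟨i, i.2, rfl⟩))
  · rw [map_sum]
    simp only [map_smul]
    exact hc

/-- injectivity on a set of small elements -/
theorem li_of_pred {N κ : Type} [CommRing N] [Algebra QB N] (b : Basis κ QB N) (T : Finset κ)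
    (ψ : N →ₐ[QB] ℂ) (P : N → Prop) (h0 : P 0) (hadd : ∀ n n', P n → P n' → P (n + n'))
    (hmul : ∀ c n, P n → P (algebraMap QB N c * n)) (hb : ∀ i : T, P (b i))
    (hinj : ∀ n, P n → ψ n = 0 → n = 0) :
    LinearIndependent QB (fun i : T => ψ (b i)) := by
  apply li_of_inj
  intro n hn h1
  refine hinj n ?_ h1
  clear h1
  induction hn using Submodule.span_induction with
  | mem a ha =>
    obtain ⟨i, hi, rfl⟩ := ha
    exact hb ⟨i, hi⟩
  | zero => exact h0
  | add a b _ _ iha ihb => exact hadd _ _ iha ihb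
  | smul c a _ iha =>
    rw [Algebra.smul_def]
    exact hmul _ _ iha

section psi

variable {s : ℕ} (B : Subalgebra QB ℂ)

/-- evaluation of the polynomials with coefficients in `B` -/
noncomputable def psi (v : Fin s → ℂ) : MvPolynomial (Fin s) B →ₐ[QB] ℂ :=
  (aeval v : MvPolynomial (Fin s) B →ₐ[B] ℂ).restrictScalars QB

theorem psi_C (v : Fin s → ℂ) (a : B) : psi B v (C a) = (a : ℂ) := aeval_C _ _

theorem psi_X (v : Fin s → ℂ) (i : Fin s) : psi B v (X i) = v i := aeval_X _ _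

theorem psi_eval (v : Fin s → ℂ) (n : MvPolynomial (Fin s) B) :
    psi B v n = eval v (map (algebraMap B ℂ) n) := by
  rw [eval_map]
  rfl

theorem psi_inj (hB : ∀ w ∈ B, w ∈ ecl ⊥) {u : Fin s → ℂ}
    (hu : AlgebraicIndependent (ecl ⊥) u) : Function.Injective (psi B u) := by
  rw [injective_iff_map_eq_zero]
  intro n hn
  let j : B →+* ecl ⊥ :=
    { toFun := fun w => ⟨(w : ℂ), hB _ w.2⟩
      map_one' := rfl
      map_mul' := fun _ _ => rfl
      map_zero' := rfl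
      map_add' := fun _ _ => rfl }
  have hj : Function.Injective j := fun a b h => Subtype.ext (congrArg (fun w : ecl ⊥ => (w : ℂ)) h)
  apply map_injective j hj
  rw [map_zero]
  rw [AlgebraicIndependent, injective_iff_map_eq_zero] at hu
  apply hu
  rw [aeval_def, eval₂_map]
  exact hn

theorem psi_mem (hB : ∀ w ∈ B, w ∈ LF t) {u : Fin s → ℂ}
    (hu : ∀ k, Complex.exp (u k) ∈ Kt t) (n : MvPolynomial (Fin s) B) : psi B u n ∈ LF t := by
  induction n using MvPolynomial.induction_on with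
  | C a =>
    rw [psi_C]
    exact hB _ a.2
  | add p q hp hq =>
    rw [map_add]
    exact add_mem hp hq
  | mul_X p i hp =>
    rw [map_mul, psi_X]
    exact mul_mem hp (IntermediateField.subset_adjoin ℚ _ (Or.inr (hu i)))

theorem exists_W {κ : Type} (b : κ → MvPolynomial (Fin s) B) (T : Finset κ) :
    ∃ W : Submodule QB ℂ, FiniteDimensional QB W ∧ ∀ (i : T) M, (((b i).coeff M : B) : ℂ) ∈ W := by
  let F : Set ℂ := ⋃ i : T, ((fun M => (((b i).coeff M : B) : ℂ)) '' ((b i).support : Set (Fin s →₀ ℕ)))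
  have hF : F.Finite := Set.finite_iUnion (fun i => (Finset.finite_toSet _).image _)
  refine ⟨Submodule.span QB F, FiniteDimensional.span_of_finite QB hF, fun i M => ?_⟩
  by_cases hM : M ∈ (b i).support
  · exact Submodule.subset_span (mem_iUnion.2 ⟨i, ⟨M, hM, rfl⟩⟩)
  · rw [notMem_support_iff.1 hM]
    exact zero_mem _

theorem exists_D {κ : Type} (b : κ → MvPolynomial (Fin s) B) (T : Finset κ) :
    ∃ D : ℕ, ∀ (i : T) k, (b i).degreeOf k ≤ D :=
  ⟨T.sup (fun i => Finset.univ.sup (fun k => (b i).degreeOf k)), fun i k =>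
    (Finset.le_sup (f := fun k => (b i).degreeOf k) (Finset.mem_univ k)).trans
      (Finset.le_sup (f := fun i => Finset.univ.sup (fun k => (b i).degreeOf k)) i.2)⟩

/-- the polynomials with coefficients in `W` of degree at most `D` -/
def Small (W : Submodule QB ℂ) (D : ℕ) (n : MvPolynomial (Fin s) B) : Prop :=
  (∀ M, ((n.coeff M : B) : ℂ) ∈ W) ∧ ∀ k, n.degreeOf k ≤ D

theorem small_add {W : Submodule QB ℂ} {D : ℕ} {n n' : MvPolynomial (Fin s) B}
    (h : Small B W D n) (h' : Small B W D n') : Small B W D (n + n') := by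
  refine ⟨fun M => ?_, fun k => ?_⟩
  · rw [coeff_add]
    exact W.add_mem (h.1 M) (h'.1 M)
  · exact (degreeOf_add_le k n n').trans (max_le (h.2 k) (h'.2 k))

theorem small_mul {W : Submodule QB ℂ} {D : ℕ} {n : MvPolynomial (Fin s) B} (c : QB)
    (h : Small B W D n) : Small B W D (C (algebraMap QB B c) * n) := by
  refine ⟨fun M => ?_, fun k => ?_⟩
  · rw [coeff_C_mul]
    exact W.smul_mem c (h.1 M)
  · exact (degreeOf_C_mul_le _ _ _).trans (h.2 k)

theorem small_mul' {W : Submodule QB ℂ} {D : ℕ} {n : MvPolynomial (Fin s) B} (c : QB)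
    (h : Small B W D n) : Small B W D (algebraMap QB (MvPolynomial (Fin s) B) c * n) := by
  rw [MvPolynomial.algebraMap_apply]
  exact small_mul B c h

theorem small_zero {W : Submodule QB ℂ} {D : ℕ} : Small (s := s) B W D 0 := by
  refine ⟨fun M => ?_, fun k => ?_⟩
  · rw [coeff_zero]
    exact W.zero_mem
  · rw [degreeOf_zero]
    exact Nat.zero_le _

theorem small_eq_zero {W : Submodule QB ℂ} {D : ℕ} {w : Fin s → ℂ}
    (hfree : ∀ P : MvPolynomial (Fin s) ℂ, (∀ M, P.coeff M ∈ W) → (∀ i, P.degreeOf i ≤ D) →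
        MvPolynomial.eval w P = 0 → P = 0) {n : MvPolynomial (Fin s) B} (h : Small B W D n)
    (h0 : psi B w n = 0) : n = 0 := by
  apply map_injective (algebraMap B ℂ) Subtype.val_injective
  rw [map_zero]
  apply hfree
  · intro M
    rw [coeff_map]
    exact h.1 M
  · intro k
    refine le_trans ?_ (h.2 k)
    rw [degreeOf_le_iff]
    intro M hM
    have h1 : M ∈ n.support := by
      rw [MvPolynomial.mem_support_iff] at hM ⊢
      intro h2
      apply hM
      rw [coeff_map, h2, map_zero]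
    exact degreeOf_le_iff.1 le_rfl M h1
  · rw [← psi_eval]
    exact h0

/-- free logarithms -/
theorem free_li (T : Finset (Idx (MvPolynomial (Fin s) B))) :
    ∃ w : Fin s → ℂ, (∀ k, Complex.exp (w k) ∈ QB) ∧
      LinearIndependent QB (fun i : T => psi B w (basN (MvPolynomial (Fin s) B) i)) := by
  obtain ⟨W, hW, hWc⟩ := exists_W B (fun i => basN (MvPolynomial (Fin s) B) i) T
  obtain ⟨D, hD⟩ := exists_D B (fun i => basN (MvPolynomial (Fin s) B) i) T
  obtain ⟨w, hw, hfree⟩ := exists_free s D W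
  refine ⟨w, fun k => mem_QB.2 (hw k), ?_⟩
  exact li_of_pred (basN (MvPolynomial (Fin s) B)) T (psi B w) (Small B W D) (small_zero B)
    (fun _ _ h h' => small_add B h h') (fun c n h => small_mul' B c h)
    (fun i => ⟨fun M => hWc i M, fun k => hD i k⟩) (fun n h h' => small_eq_zero B hfree h h')

/-- a linear polynomial -/
noncomputable def yy {n : ℕ} (a : Fin n → ℂ) (haB : ∀ ρ, a ρ ∈ B) (A : Fin n → Fin s → ℚ) (ρ : Fin n) :
    MvPolynomial (Fin s) B :=
  C (⟨a ρ, haB ρ⟩ : B) + ∑ j, ((A ρ j : ℚ) : QB) • (X j : MvPolynomial (Fin s) B)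

theorem psi_yy {n : ℕ} (a : Fin n → ℂ) (haB : ∀ ρ, a ρ ∈ B) (A : Fin n → Fin s → ℚ) (ρ : Fin n)
    (v : Fin s → ℂ) : psi B v (yy B a haB A ρ) = a ρ + ∑ j, (A ρ j : ℂ) * v j := by
  unfold yy
  rw [map_add, psi_C, map_sum]
  congr 1
  refine Finset.sum_congr rfl (fun j _ => ?_)
  rw [map_smul, psi_X, Algebra.smul_def]
  rfl

end psi

/-- representation of finitely many linear forms -/
theorem lin_rep {K : IntermediateField ℚ ℂ} {ι : Type} [Finite ι] (z : ι → ℂ)
    (hz : ∀ i, z i ∈ Submodule.span K ({1} ∪ {l : ℂ | Complex.exp l ∈ K})) :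
    ∃ (n : ℕ) (x : Fin n → ℂ) (κ₀ : ι → K) (κ : ι → Fin n → K), (∀ ρ, Complex.exp (x ρ) ∈ K) ∧
      ∀ i, z i = (κ₀ i : ℂ) + ∑ ρ, (κ i ρ : ℂ) * x ρ := by
  classical
  have h1 : ∀ i, ∃ T : Finset ℂ, (T : Set ℂ) ⊆ {1} ∪ {l : ℂ | Complex.exp l ∈ K} ∧
      z i ∈ Submodule.span K (T : Set ℂ) := fun i => Submodule.mem_span_finite_of_mem_span (hz i)
  choose T hT1 hT2 using h1
  let U : Set ℂ := (⋃ i, (T i : Set ℂ)) ∩ {l : ℂ | Complex.exp l ∈ K}
  have hU : U.Finite := (Set.finite_iUnion (fun i => (T i).finite_toSet)).inter_of_left _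
  have : Finite U := hU
  have : Fintype U := Fintype.ofFinite U
  let e := Fintype.equivFin U
  let x : Fin (Fintype.card U) → ℂ := fun i => ((e.symm i : U) : ℂ)
  have h3 : ∀ i, z i ∈ Submodule.span K
      (range (fun o : Option (Fin (Fintype.card U)) => (o.elim 1 x : ℂ))) := by
    intro i
    refine Submodule.span_le.2 ?_ (hT2 i)
    intro w hw
    rcases hT1 i hw with h4 | h4
    · rw [mem_singleton_iff] at h4
      rw [h4]
      exact Submodule.subset_span ⟨none, rfl⟩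
    · have hwU : w ∈ U := ⟨mem_iUnion.2 ⟨i, hw⟩, h4⟩
      apply Submodule.subset_span
      refine ⟨some (e ⟨w, hwU⟩), ?_⟩
      change ((e.symm (e ⟨w, hwU⟩) : U) : ℂ) = w
      rw [Equiv.symm_apply_apply]
  choose g hg using fun i => (Submodule.mem_span_range_iff_exists_fun K).1 (h3 i)
  refine ⟨_, x, fun i => g i none, fun i ρ => g i (some ρ), fun ρ => (e.symm ρ).2.2, fun i => ?_⟩
  rw [← hg i, Fintype.sum_option]
  congr 1
  change (g i none : ℂ) * 1 = _
  rw [mul_one]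

/-- evaluation of integral polynomials commutes with homomorphisms -/
theorem map_aeval_int {A A' : Type*} [CommRing A] [CommRing A'] (f : A →+* A') {ι : Type}
    (z : ι → A) (g : MvPolynomial ι ℤ) : f (aeval z g) = aeval (fun i => f (z i)) g := by
  induction g using MvPolynomial.induction_on with
  | C a => simp
  | add p q hp hq => rw [map_add, map_add, map_add, hp, hq]
  | mul_X p i hp => rw [map_mul, map_mul, map_mul, hp, aeval_X, aeval_X]

/-- specialisation, abstract form -/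
theorem special_abs (ht : Gen ⊥ t) {ι J Q κ' N : Type} [Fintype ι] [Fintype J] [Fintype Q]
    [CommRing N] [Algebra QB N] (b : Basis κ' QB N) (R : Subalgebra QB ℂ) (hR : ∀ r ∈ R, r ∈ Kt t)
    (S : Finset ℂ) (hRS : R = Algebra.adjoin QB (S : Set ℂ)) (ψ : N →ₐ[QB] ℂ)
    (hinj : Function.Injective ψ) (hmem : ∀ n, ψ n ∈ LF t) {n : ℕ} (y : Fin n → N) (κ₀ : ι → R)
    (κ : ι → Fin n → R) (g : J → Q → MvPolynomial ι ℤ)
    (hg : LinearIndependent (Kt t) (fun j q =>
      (aeval (fun i => (κ₀ i : ℂ) + ∑ ρ, (κ i ρ : ℂ) * ψ (y ρ)) (g j q) : ℂ))) :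
    ∃ (T : Finset κ') (φ : R →ₐ[QB] QB), ∀ ψ' : N →ₐ[QB] ℂ,
      LinearIndependent QB (fun i : T => ψ' (b i)) →
      (∀ f : MvPolynomial ι ℤ, (aeval (fun i => (κ₀ i : ℂ) + ∑ ρ, (κ i ρ : ℂ) * ψ (y ρ)) f : ℂ) = 0 →
        (aeval (fun i => (φ (κ₀ i) : ℂ) + ∑ ρ, (φ (κ i ρ) : ℂ) * ψ' (y ρ)) f : ℂ) = 0) ∧
      LinearIndependent QB (fun j q =>
        (aeval (fun i => (φ (κ₀ i) : ℂ) + ∑ ρ, (φ (κ i ρ) : ℂ) * ψ' (y ρ)) (g j q) : ℂ)) := by
  let zz : ι → R ⊗[QB] N := fun i => κ₀ i ⊗ₜ[QB] (1 : N) + ∑ ρ, κ i ρ ⊗ₜ[QB] y ρ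
  have hzz : ∀ (θ : R →ₐ[QB] ℂ) (ψ' : N →ₐ[QB] ℂ) (i : ι), pm R θ ψ' (zz i) =
      θ (κ₀ i) + ∑ ρ, θ (κ i ρ) * ψ' (y ρ) := by
    intro θ ψ' i
    unfold pm
    simp only [zz]
    rw [map_add, map_sum, Algebra.TensorProduct.productMap_apply_tmul, map_one, mul_one]
    congr 1
  have haev : ∀ (θ : R →ₐ[QB] ℂ) (ψ' : N →ₐ[QB] ℂ) (f : MvPolynomial ι ℤ),
      pm R θ ψ' (aeval zz f) = aeval (fun i => θ (κ₀ i) + ∑ ρ, θ (κ i ρ) * ψ' (y ρ)) f := by
    intro θ ψ' f
    have h1 := map_aeval_int (pm R θ ψ').toRingHom zz f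
    have h2 : (fun i => (pm R θ ψ').toRingHom (zz i)) =
        fun i => θ (κ₀ i) + ∑ ρ, θ (κ i ρ) * ψ' (y ρ) := by
      funext i
      exact hzz θ ψ' i
    rw [h2] at h1
    exact h1
  obtain ⟨T, φ, hTφ⟩ := spec R b hR S hRS ψ (fun j q => aeval zz (g j q)) (by
    have h1 : (fun j q => pm R R.val ψ (aeval zz (g j q))) =
        fun j q => (aeval (fun i => (κ₀ i : ℂ) + ∑ ρ, (κ i ρ : ℂ) * ψ (y ρ)) (g j q) : ℂ) := by
      funext j q
      exact haev R.val ψ _
    rw [h1]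
    exact hg)
  refine ⟨T, φ, fun ψ' hψ' => ⟨fun f hf => ?_, ?_⟩⟩
  · have h1 : aeval zz f = 0 := pm_zero R hR ht ψ hinj hmem _ (by
      rw [haev R.val ψ f]
      exact hf)
    have h2 := haev ((Algebra.ofId QB ℂ).comp φ) ψ' f
    rw [h1, map_zero] at h2
    exact h2.symm
  · have h1 := hTφ ψ' hψ'
    have h2 : (fun j q => pm R ((Algebra.ofId QB ℂ).comp φ) ψ' (aeval zz (g j q))) =
        fun j q => (aeval (fun i => (φ (κ₀ i) : ℂ) + ∑ ρ, (φ (κ i ρ) : ℂ) * ψ' (y ρ)) (g j q) : ℂ) := by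
      funext j q
      exact haev ((Algebra.ofId QB ℂ).comp φ) ψ' _
    rw [h2] at h1
    exact h1

/-- the algebra generated by finitely many elements -/
theorem exists_R {K : IntermediateField ℚ ℂ} (hK : QB ≤ K) {ι : Type} [Fintype ι] {n : ℕ} (κ₀ : ι → K)
    (κ : ι → Fin n → K) : ∃ (S : Finset ℂ) (R : Subalgebra QB ℂ), R = Algebra.adjoin QB (S : Set ℂ) ∧
      (∀ r ∈ R, r ∈ K) ∧ (∀ i, (κ₀ i : ℂ) ∈ R) ∧ ∀ i ρ, (κ i ρ : ℂ) ∈ R := by
  classical
  let S : Finset ℂ := Finset.univ.image (fun i : ι => (κ₀ i : ℂ)) ∪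
    Finset.univ.image (fun q : ι × Fin n => (κ q.1 q.2 : ℂ))
  refine ⟨S, _, rfl, ?_, ?_, ?_⟩
  · intro r hr
    induction hr using Algebra.adjoin_induction with
    | mem a' ha' =>
      rcases Finset.mem_union.1 (Finset.mem_coe.1 ha') with h1 | h1
      · obtain ⟨i, -, rfl⟩ := Finset.mem_image.1 h1
        exact (κ₀ i).2
      · obtain ⟨q, -, rfl⟩ := Finset.mem_image.1 h1
        exact (κ q.1 q.2).2
    | algebraMap a' => exact hK a'.2
    | add a' b' _ _ iha ihb => exact add_mem iha ihb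
    | mul a' b' _ _ iha ihb => exact mul_mem iha ihb
  · intro i
    exact Algebra.subset_adjoin (Finset.mem_coe.2 (Finset.mem_union_left _
      (Finset.mem_image_of_mem _ (Finset.mem_univ i))))
  · intro i ρ
    exact Algebra.subset_adjoin (Finset.mem_coe.2 (Finset.mem_union_right _
      (Finset.mem_image_of_mem _ (Finset.mem_univ (i, ρ)))))

theorem exists_B (t : Fin m → ℂ) {n : ℕ} {a : Fin n → ℂ} (ha : ∀ ρ, Complex.exp (a ρ) ∈ QB) :
    ∃ B : Subalgebra QB ℂ, (∀ w ∈ B, w ∈ ecl ⊥) ∧ (∀ w ∈ B, w ∈ LF t) ∧ ∀ ρ, a ρ ∈ B := by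
  refine ⟨Algebra.adjoin QB (range a), ?_, ?_, fun ρ => Algebra.subset_adjoin ⟨ρ, rfl⟩⟩
  · intro w hw
    induction hw using Algebra.adjoin_induction with
    | mem a' ha' =>
      obtain ⟨r, rfl⟩ := ha'
      exact log_mem_ecl (ha r)
    | algebraMap a' => exact QB_le_ecl a'.2
    | add a' b' _ _ iha ihb => exact add_mem iha ihb
    | mul a' b' _ _ iha ihb => exact mul_mem iha ihb
  · intro w hw
    induction hw using Algebra.adjoin_induction with
    | mem a' ha' =>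
      obtain ⟨r, rfl⟩ := ha'
      exact IntermediateField.subset_adjoin ℚ _ (Or.inr (QB_le t (ha r)))
    | algebraMap a' => exact QB_le_LF a'.2
    | add a' b' _ _ iha ihb => exact add_mem iha ihb
    | mul a' b' _ _ iha ihb => exact mul_mem iha ihb

/-- elements of the space of linear forms -/
theorem mem_lin {K : IntermediateField ℚ ℂ} {n : ℕ} (c : K) (d : Fin n → K) (x : Fin n → ℂ)
    (hx : ∀ ρ, Complex.exp (x ρ) ∈ K) :
    (c : ℂ) + ∑ ρ, (d ρ : ℂ) * x ρ ∈ Submodule.span K ({1} ∪ {l : ℂ | Complex.exp l ∈ K}) := by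
  have hone : (1 : ℂ) ∈ Submodule.span K ({1} ∪ {l : ℂ | Complex.exp l ∈ K}) :=
    Submodule.subset_span (Or.inl rfl)
  refine add_mem ?_ (sum_mem (fun ρ _ => ?_))
  · have h1 := (Submodule.span K ({1} ∪ {l : ℂ | Complex.exp l ∈ K})).smul_mem c hone
    rw [Algebra.smul_def, mul_one] at h1
    exact h1
  · have h1 := (Submodule.span K ({1} ∪ {l : ℂ | Complex.exp l ∈ K})).smul_mem (d ρ)
      (Submodule.subset_span (Or.inr (hx ρ)))
    rw [Algebra.smul_def] at h1
    exact h1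

/-- **Specialisation of linear forms in logarithms over generic fields.** -/
theorem special (ht : Gen ⊥ t) {ι J Q : Type} [Fintype ι] [Fintype J] [Fintype Q] (z : ι → ℂ)
    (hz : ∀ i, z i ∈ Submodule.span (Kt t) ({1} ∪ {l : ℂ | Complex.exp l ∈ Kt t}))
    (g : J → Q → MvPolynomial ι ℤ)
    (hg : LinearIndependent (Kt t) (fun j q => (aeval z (g j q) : ℂ))) :
    ∃ z' : ι → ℂ, (∀ i, z' i ∈ Submodule.span QB ({1} ∪ {l : ℂ | Complex.exp l ∈ QB})) ∧
      (∀ f : MvPolynomial ι ℤ, (aeval z f : ℂ) = 0 → (aeval z' f : ℂ) = 0) ∧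
      LinearIndependent QB (fun j q => (aeval z' (g j q) : ℂ)) := by
  obtain ⟨n, x, κ₀, κ, hx, hzx⟩ := lin_rep z hz
  obtain ⟨s, a, A, u, ha, hxa, hu, hai⟩ := decomp ht x hx
  have hai' : AlgebraicIndependent (ecl ⊥) u := hai.comp Sum.inr Sum.inr_injective
  obtain ⟨B, hBe, hBL, haB⟩ := exists_B t ha
  obtain ⟨S, R, hRS, hR, hκ₀, hκ⟩ := exists_R (QB_le t) κ₀ κ
  have hz1 : z = fun i => ((⟨κ₀ i, hκ₀ i⟩ : R) : ℂ) + ∑ ρ, ((⟨κ i ρ, hκ i ρ⟩ : R) : ℂ) *
      psi B u (yy B a haB A ρ) := by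
    funext i
    rw [hzx i]
    congr 1
    refine Finset.sum_congr rfl (fun ρ _ => ?_)
    rw [hxa ρ, psi_yy]
  rw [hz1] at hg ⊢
  obtain ⟨T, φ, hTφ⟩ := special_abs ht (basN (MvPolynomial (Fin s) B)) R hR S hRS
    (psi B u) (psi_inj B hBe hai') (psi_mem B hBL hu) (yy B a haB A)
    (fun i => ⟨κ₀ i, hκ₀ i⟩) (fun i ρ => ⟨κ i ρ, hκ i ρ⟩) g hg
  obtain ⟨w, hw, hwli⟩ := free_li B T
  obtain ⟨h1, h2⟩ := hTφ (psi B w) hwli
  refine ⟨fun i => (φ ⟨κ₀ i, hκ₀ i⟩ : ℂ) + ∑ ρ, (φ ⟨κ i ρ, hκ i ρ⟩ : ℂ) *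
    psi B w (yy B a haB A ρ), fun i => ?_, h1, h2⟩
  refine mem_lin _ _ _ (fun ρ => ?_)
  rw [psi_yy, Complex.exp_add]
  exact mul_mem (ha ρ) (mem_QB.2 (Use.exp_sum (fun k => mem_QB.1 (hw k)) (A ρ)))

end Pool.Agent.Helper78.RK
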