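import Mathlib

/-!
# Minors
-/

set_option autoImplicit false

namespace Pool.Agent.Helper78.RK

open Module Set

/-- a minor of the matrix with the columns `v` -/
def mnr {A : Type*} [CommRing A] {n d : ℕ} (v : Fin n → Fin d → A) (ρ : Fin n → Fin d) : A :=
  Matrix.det (Matrix.of fun a b => v b (ρ a))

theorem map_mnr {A A' : Type*} [CommRing A] [CommRing A'] (f : A →+* A') {n d : ℕ}
    (v : Fin n → Fin d → A) (ρ : Fin n → Fin d) : f (mnr v ρ) = mnr (fun b i => f (v b i)) ρ := by
  unfold mnr
  rw [RingHom.map_det]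
  rfl

theorem mnr_cons {A : Type*} [CommRing A] {n d : ℕ} (c : Fin d → A) (v : Fin n → Fin d → A)
    (ρ : Fin (n + 1) → Fin d) : mnr (Fin.cons c v : Fin (n + 1) → Fin d → A) ρ =
      ∑ i, c i * mnr (Fin.cons (Pi.single i 1) v : Fin (n + 1) → Fin d → A) ρ := by
  have h1 : ∀ c : Fin d → A, mnr (Fin.cons c v : Fin (n + 1) → Fin d → A) ρ =
      ∑ a : Fin (n + 1), (-1) ^ (a : ℕ) * c (ρ a) *
        Matrix.det (Matrix.of fun (x y : Fin n) => v y (ρ (a.succAbove x))) := by
    intro c
    unfold mnr
    rw [Matrix.det_succ_column_zero]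
    refine Finset.sum_congr rfl (fun a _ => ?_)
    congr 1
  rw [h1]
  simp only [h1, Finset.mul_sum]
  rw [Finset.sum_comm]
  refine Finset.sum_congr rfl (fun a _ => ?_)
  rw [Finset.sum_eq_single (ρ a)]
  · rw [Pi.single_eq_same]
    ring
  · intro i _ hi
    rw [Pi.single_eq_of_ne (Ne.symm hi)]
    ring
  · intro h
    exact absurd (Finset.mem_univ _) h

section field

variable {F : Type} [Field F]

theorem li_iff {n d : ℕ} (v : Fin n → Fin d → F) :
    LinearIndependent F v ↔ ∃ ρ : Fin n → Fin d, mnr v ρ ≠ 0 := by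
  constructor
  · intro h
    let w : Fin d → (Fin n → F) := fun i b => v b i
    have hspan : Submodule.span F (range w) = ⊤ := by
      by_contra hcon
      obtain ⟨f, hf0, hf⟩ := Submodule.exists_le_ker_of_lt_top _ (lt_top_iff_ne_top.2 hcon)
      have h1 : ∀ b, f (Pi.single b 1) = 0 := by
        apply Fintype.linearIndependent_iff.1 h (fun b => f (Pi.single b 1))
        funext i
        rw [Finset.sum_apply, Pi.zero_apply]
        have h2 : f (w i) = 0 := hf (Submodule.subset_span ⟨i, rfl⟩)
        rw [← h2]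
        conv_rhs => rw [pi_eq_sum_univ' (w i), map_sum]
        refine Finset.sum_congr rfl (fun b _ => ?_)
        rw [map_smul, Pi.smul_apply, smul_eq_mul, smul_eq_mul, mul_comm]
      apply hf0
      apply LinearMap.pi_ext'
      intro b
      ext
      rw [LinearMap.comp_apply, LinearMap.comp_apply, LinearMap.zero_apply]
      exact h1 b
    obtain ⟨f, hf1, hf2, hf3⟩ := Submodule.exists_fun_fin_finrank_span_eq F (range w)
    have hn : finrank F (Submodule.span F (range w)) = n := by
      rw [hspan, finrank_top, Module.finrank_fintype_fun_eq_card, Fintype.card_fin]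
    choose ρ' hρ' using hf1
    let e := finCongr hn.symm
    refine ⟨fun a => ρ' (e a), ?_⟩
    have h2 : LinearIndependent F (fun a => f (e a)) := hf3.comp _ e.injective
    have h3 : IsUnit (Matrix.of fun a b => v b (ρ' (e a))) := by
      rw [← Matrix.linearIndependent_rows_iff_isUnit]
      have h4 : (Matrix.of fun a b => v b (ρ' (e a))).row = fun a => f (e a) := by
        funext a b
        have := congrFun (hρ' (e a)) b
        exact this
      rw [h4]
      exact h2
    exact ((Matrix.isUnit_iff_isUnit_det _).1 h3).ne_zero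
  · rintro ⟨ρ, hρ⟩
    have h1 := Matrix.linearIndependent_cols_of_det_ne_zero hρ
    rw [Fintype.linearIndependent_iff] at h1 ⊢
    intro g hg
    apply h1 g
    funext a
    have h2 := congrFun hg (ρ a)
    rw [Finset.sum_apply] at h2 ⊢
    exact h2

theorem mnr_zero {n d : ℕ} {V : Submodule F (Fin d → F)} (hV : finrank F V < n)
    (v : Fin n → Fin d → F) (hv : ∀ b, v b ∈ V) (ρ : Fin n → Fin d) : mnr v ρ = 0 := by
  by_contra hcon
  have h1 := (li_iff v).2 ⟨ρ, hcon⟩
  have h2 : LinearIndependent F (fun b => (⟨v b, hv b⟩ : V)) :=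
    LinearIndependent.of_comp V.subtype h1
  have h3 := h2.fintype_card_le_finrank
  rw [Fintype.card_fin] at h3
  omega

theorem rank_le {n d r : ℕ} (a : Fin n → Fin d → F)
    (h : ∀ (ρ : Fin (r + 1) → Fin d) (τ : Fin (r + 1) → Fin n), mnr (fun b => a (τ b)) ρ = 0) :
    finrank F (Submodule.span F (range a)) ≤ r := by
  by_contra hcon
  push Not at hcon
  obtain ⟨f, hf1, -, hf3⟩ := Submodule.exists_fun_fin_finrank_span_eq F (range a)
  choose τ hτ using hf1
  let e : Fin (r + 1) → Fin (finrank F (Submodule.span F (range a))) := Fin.castLE hcon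
  have h1 : LinearIndependent F (fun b => f (e b)) := hf3.comp _ (Fin.castLE_injective hcon)
  have h2 : (fun b => f (e b)) = fun b => a (τ (e b)) := by
    funext b
    exact (hτ (e b)).symm
  rw [h2] at h1
  obtain ⟨ρ, hρ⟩ := (li_iff _).1 h1
  exact hρ (h ρ (fun b => τ (e b)))

theorem mem_of_minors {n d r : ℕ} (a : Fin n → Fin d → F)
    (hr : finrank F (Submodule.span F (range a)) = r) (c : Fin d → F)
    (h : ∀ (ρ : Fin (r + 1) → Fin d) (τ : Fin r → Fin n),
      mnr (Fin.cons c (fun b => a (τ b)) : Fin (r + 1) → Fin d → F) ρ = 0) :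
    c ∈ Submodule.span F (range a) := by
  subst hr
  obtain ⟨f, hf1, hf2, hf3⟩ := Submodule.exists_fun_fin_finrank_span_eq F (range a)
  choose τ hτ using hf1
  by_contra hcon
  rw [← hf2] at hcon
  obtain ⟨ρ, hρ⟩ := (li_iff _).1 (hf3.finCons hcon)
  apply hρ
  have h2 : f = fun b => a (τ b) := by
    funext b
    exact (hτ b).symm
  have h3 := h ρ τ
  rw [← h2] at h3
  exact h3

end field

end Pool.Agent.Helper78.RK
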