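import Mathlib
import Pool.Agent.Helper78.RK.Fam
import Pool.Agent.Helper78.RK.Minor
import Pool.Graph.R_seed8.W254.HP.Prod

/-!
# Subspaces without rational points and points whose coordinates are linear forms in logarithms
-/

set_option autoImplicit false

namespace Pool.Agent.Helper78.RK

open Module Set MvPolynomial
open Pool.Agent.Helper78.SC Pool.Agent.Helper78.EC
open Pool.Agent.Helper78.EC.Closure Pool.Agent.Helper78.EC.Generic
open Pool.Agent.Helper78.EC.Disj Pool.Agent.Helper78.EC.Str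

variable {m : ℕ} {t : Fin m → ℂ}

/-- linear forms in logarithms -/
noncomputable def Lin (K : IntermediateField ℚ ℂ) : Submodule K ℂ :=
  Submodule.span K ({1} ∪ {l : ℂ | Complex.exp l ∈ K})

/-- bounds for the number of independent points of subspaces without rational points -/
def Bound (K : IntermediateField ℚ ℂ) (d r N : ℕ) : Prop :=
  ∀ V : Submodule ℂ (Fin d → ℂ), finrank ℂ V ≤ r →
    (∀ c : Fin d → K, (fun i => (c i : ℂ)) ∈ V → c = 0) →
    ∀ (n : ℕ) (a : Fin n → Fin d → ℂ), (∀ j, a j ∈ V) → (∀ j i, a j i ∈ Lin K) →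
      LinearIndependent K a → n ≤ N

theorem Lin_le {K K' : IntermediateField ℚ ℂ} (h : K ≤ K') {w : ℂ} (hw : w ∈ Lin K) : w ∈ Lin K' := by
  induction hw using Submodule.span_induction with
  | mem a ha =>
    apply Submodule.subset_span
    rcases ha with ha | ha
    · exact Or.inl ha
    · exact Or.inr (h ha)
  | zero => exact zero_mem _
  | add a b _ _ iha ihb => exact add_mem iha ihb
  | smul c a _ iha =>
    have h1 := (Lin K').smul_mem (⟨(c : ℂ), h c.2⟩ : K') iha
    rw [Algebra.smul_def] at h1 ⊢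
    exact h1

theorem Lin_LF {w : ℂ} (hw : w ∈ Lin QB) : w ∈ LF t := by
  induction hw using Submodule.span_induction with
  | mem a ha =>
    rcases ha with ha | ha
    · rw [mem_singleton_iff] at ha
      rw [ha]
      exact one_mem _
    · exact IntermediateField.subset_adjoin ℚ _ (Or.inr (QB_le t ha))
  | zero => exact zero_mem _
  | add a b _ _ iha ihb => exact add_mem iha ihb
  | smul c a _ iha =>
    rw [Algebra.smul_def]
    exact mul_mem (QB_le_LF c.2) iha

/-- the value of a minor is in the field -/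
theorem mnr_mem {L : IntermediateField ℚ ℂ} {n d : ℕ} {v : Fin n → Fin d → ℂ}
    (hv : ∀ b i, v b i ∈ L) (ρ : Fin n → Fin d) : mnr v ρ ∈ L := by
  unfold mnr
  rw [Matrix.det_apply]
  refine sum_mem (fun σ _ => ?_)
  rw [Units.smul_def, zsmul_eq_mul]
  exact mul_mem (intCast_mem _ _) (prod_mem (fun i _ => hv _ _))

/-- the vectors of the minors -/
noncomputable def gv {n d : ℕ} (r : ℕ) (a : Fin n → Fin d → ℂ) (i : Fin d)
    (q : (Fin (r + 1) → Fin d) × (Fin r → Fin n)) : ℂ :=
  mnr (Fin.cons (Pi.single i 1) (fun b => a (q.2 b)) : Fin (r + 1) → Fin d → ℂ) q.1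

theorem gv_sum {n d r : ℕ} (a : Fin n → Fin d → ℂ) (c : Fin d → ℂ)
    (q : (Fin (r + 1) → Fin d) × (Fin r → Fin n)) :
    ∑ i, c i * gv r a i q =
      mnr (Fin.cons c (fun b => a (q.2 b)) : Fin (r + 1) → Fin d → ℂ) q.1 :=
  (mnr_cons c _ _).symm

/-- subspaces without rational points have independent vectors of minors -/
theorem gv_li {K : IntermediateField ℚ ℂ} {n d r : ℕ} {a : Fin n → Fin d → ℂ}
    (hr : finrank ℂ (Submodule.span ℂ (range a)) = r)
    (hV : ∀ c : Fin d → K, (fun i => (c i : ℂ)) ∈ Submodule.span ℂ (range a) → c = 0) :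
    LinearIndependent K (gv r a) := by
  rw [Fintype.linearIndependent_iff]
  intro c hc
  have h1 := hV c (mem_of_minors a hr _ (fun ρ τ => by
    rw [← gv_sum a (fun i => (c i : ℂ)) (ρ, τ)]
    have h2 := congrFun hc (ρ, τ)
    rw [Finset.sum_apply, Pi.zero_apply] at h2
    exact h2))
  intro i
  rw [h1]
  rfl

/-- and conversely -/
theorem of_gv_li {K : IntermediateField ℚ ℂ} {n d r : ℕ} {a : Fin n → Fin d → ℂ}
    (hr : finrank ℂ (Submodule.span ℂ (range a)) ≤ r) (hli : LinearIndependent K (gv r a))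
    (c : Fin d → K) (hc : (fun i => (c i : ℂ)) ∈ Submodule.span ℂ (range a)) : c = 0 := by
  rw [Fintype.linearIndependent_iff] at hli
  funext i
  apply hli c
  funext q
  rw [Finset.sum_apply, Pi.zero_apply]
  have h1 := gv_sum (r := r) a (fun i => (c i : ℂ)) q
  refine Eq.trans h1 ?_
  apply mnr_zero (V := Submodule.span ℂ (range a)) (by omega)
  intro b
  refine Fin.cases ?_ (fun b => ?_) b
  · exact hc
  · exact Submodule.subset_span ⟨_, rfl⟩

/-- polynomials whose values are the minors -/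
noncomputable def gP {n d : ℕ} (r : ℕ) (i : Fin d) (q : (Fin (r + 1) → Fin d) × (Fin r → Fin n)) :
    MvPolynomial (Fin n × Fin d) ℤ :=
  mnr (Fin.cons (Pi.single i 1) (fun b i' => X (q.2 b, i')) :
    Fin (r + 1) → Fin d → MvPolynomial (Fin n × Fin d) ℤ) q.1

theorem aeval_mnr {n d k : ℕ} (z : Fin n × Fin d → ℂ)
    (v : Fin k → Fin d → MvPolynomial (Fin n × Fin d) ℤ) (ρ : Fin k → Fin d) :
    (aeval z (mnr v ρ) : ℂ) = mnr (fun b i => (aeval z (v b i) : ℂ)) ρ :=
  map_mnr (aeval z : MvPolynomial (Fin n × Fin d) ℤ →ₐ[ℤ] ℂ).toRingHom v ρ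

theorem aeval_gP {n d : ℕ} (r : ℕ) (z : Fin n × Fin d → ℂ) (i : Fin d)
    (q : (Fin (r + 1) → Fin d) × (Fin r → Fin n)) :
    (aeval z (gP r i q) : ℂ) = gv r (fun j i => z (j, i)) i q := by
  unfold gP gv
  rw [aeval_mnr]
  congr 1
  funext b i'
  refine Fin.cases ?_ (fun b => ?_) b
  · rw [Fin.cons_zero, Fin.cons_zero]
    by_cases h : i' = i
    · rw [h, Pi.single_eq_same, Pi.single_eq_same, map_one]
    · rw [Pi.single_eq_of_ne h, Pi.single_eq_of_ne h, map_zero]
  · rw [Fin.cons_succ, Fin.cons_succ, aeval_X]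

/-- block families -/
theorem block_li {K : IntermediateField ℚ ℂ} {J₁ J₂ Q₁ Q₂ : Type} [Fintype J₁] [Fintype J₂]
    (f : J₁ → Q₁ → ℂ) (g : J₂ → Q₂ → ℂ) :
    LinearIndependent K (Sum.elim (fun j => Sum.elim (f j) 0) (fun j => Sum.elim 0 (g j)) :
      J₁ ⊕ J₂ → (Q₁ ⊕ Q₂ → ℂ)) ↔ LinearIndependent K f ∧ LinearIndependent K g := by
  rw [Fintype.linearIndependent_iff, Fintype.linearIndependent_iff, Fintype.linearIndependent_iff]
  constructor
  · intro h
    constructor
    · intro c hc j
      refine h (Sum.elim c 0) ?_ (Sum.inl j)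
      rw [Fintype.sum_sum_type]
      funext q
      rw [Pi.add_apply, Finset.sum_apply, Finset.sum_apply, Pi.zero_apply]
      rcases q with q | q
      · have h1 := congrFun hc q
        rw [Finset.sum_apply, Pi.zero_apply] at h1
        simpa using h1
      · simp
    · intro c hc j
      refine h (Sum.elim 0 c) ?_ (Sum.inr j)
      rw [Fintype.sum_sum_type]
      funext q
      rw [Pi.add_apply, Finset.sum_apply, Finset.sum_apply, Pi.zero_apply]
      rcases q with q | q
      · simp
      · have h1 := congrFun hc q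
        rw [Finset.sum_apply, Pi.zero_apply] at h1
        simpa using h1
  · rintro ⟨h1, h2⟩ c hc j
    rw [Fintype.sum_sum_type] at hc
    rcases j with j | j
    · refine h1 (fun j => c (Sum.inl j)) ?_ j
      funext q
      have h3 := congrFun hc (Sum.inl q)
      rw [Pi.add_apply, Finset.sum_apply, Finset.sum_apply, Pi.zero_apply] at h3
      rw [Finset.sum_apply, Pi.zero_apply]
      simpa using h3
    · refine h2 (fun j => c (Sum.inr j)) ?_ j
      funext q
      have h3 := congrFun hc (Sum.inr q)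
      rw [Pi.add_apply, Finset.sum_apply, Finset.sum_apply, Pi.zero_apply] at h3
      rw [Finset.sum_apply, Pi.zero_apply]
      simpa using h3

/-- the polynomials of the block family -/
noncomputable def GG {n d : ℕ} (r : ℕ) (j : Fin d ⊕ Fin n)
    (q : ((Fin (r + 1) → Fin d) × (Fin r → Fin n)) ⊕ Fin d) : MvPolynomial (Fin n × Fin d) ℤ :=
  match j, q with
  | Sum.inl i, Sum.inl q => gP r i q
  | Sum.inl _, Sum.inr _ => 0
  | Sum.inr _, Sum.inl _ => 0
  | Sum.inr j, Sum.inr i => X (j, i)

theorem aeval_GG {n d : ℕ} (r : ℕ) (z : Fin n × Fin d → ℂ) :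
    (fun j q => (aeval z (GG r j q) : ℂ)) =
      (Sum.elim (fun j => Sum.elim (gv r (fun j i => z (j, i)) j) 0)
        (fun j => Sum.elim 0 (fun i => z (j, i))) :
          Fin d ⊕ Fin n → (((Fin (r + 1) → Fin d) × (Fin r → Fin n)) ⊕ Fin d → ℂ)) := by
  funext j q
  rcases j with j | j <;> rcases q with q | q
  · exact aeval_gP r z j q
  · exact map_zero _
  · exact map_zero _
  · exact aeval_X _ _

/-- **Transfer** from the algebraic numbers to generic fields. -/
theorem bound_of_QB (ht : Gen ⊥ t) {d r N : ℕ} (h : Bound QB d r N) : Bound (Kt t) d r N := by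
  intro V hVr hV n a haV haL hali
  have hle : Submodule.span ℂ (range a) ≤ V := by
    rw [Submodule.span_le]
    rintro _ ⟨j, rfl⟩
    exact haV j
  obtain ⟨r₁, hr₁⟩ : ∃ r₁, finrank ℂ (Submodule.span ℂ (range a)) = r₁ := ⟨_, rfl⟩
  have hr₁r : r₁ ≤ r := by
    rw [← hr₁]
    exact (Submodule.finrank_mono hle).trans hVr
  have hg := gv_li (K := Kt t) hr₁ (fun c hc => hV c (hle hc))
  obtain ⟨z', hz'L, hz'rel, hz'li⟩ := special ht (ι := Fin n × Fin d) (fun q => a q.1 q.2)
    (fun q => haL q.1 q.2) (GG r₁) (by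
      rw [aeval_GG, block_li]
      exact ⟨hg, hali⟩)
  rw [aeval_GG, block_li] at hz'li
  have hrank : finrank ℂ (Submodule.span ℂ (range (fun (j : Fin n) (i : Fin d) => z' (j, i)))) ≤ r₁ := by
    apply rank_le
    intro ρ τ
    have h1 := hz'rel (mnr (fun b i => X (τ b, i)) ρ) (by
      rw [aeval_mnr]
      simp only [aeval_X]
      apply mnr_zero (V := Submodule.span ℂ (range a)) (by omega)
      intro b
      exact Submodule.subset_span ⟨τ b, rfl⟩)
    rw [aeval_mnr] at h1
    simp only [aeval_X] at h1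
    exact h1
  exact h (Submodule.span ℂ (range (fun (j : Fin n) (i : Fin d) => z' (j, i))))
    (hrank.trans hr₁r) (of_gv_li hrank hz'li.1) n (fun j i => z' (j, i))
    (fun j => Submodule.subset_span ⟨j, rfl⟩) (fun j i => hz'L (j, i)) hz'li.2

/-- no new rational points -/
theorem no_new (ht : Gen ⊥ t) {n d : ℕ} {a : Fin n → Fin d → ℂ} (haL : ∀ j i, a j i ∈ Lin QB)
    (hV : ∀ c : Fin d → QB, (fun i => (c i : ℂ)) ∈ Submodule.span ℂ (range a) → c = 0)
    (c : Fin d → Kt t) (hc : (fun i => (c i : ℂ)) ∈ Submodule.span ℂ (range a)) : c = 0 := by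
  have hg := gv_li (K := QB) rfl hV
  have hg' := vec_disj ht (gv (finrank ℂ (Submodule.span ℂ (range a))) a) (by
    intro i q
    apply mnr_mem
    intro b i'
    refine Fin.cases ?_ (fun b => ?_) b
    · rw [Fin.cons_zero]
      by_cases h : i' = i
      · rw [h, Pi.single_eq_same]
        exact one_mem _
      · rw [Pi.single_eq_of_ne h]
        exact zero_mem _
    · rw [Fin.cons_succ]
      exact Lin_LF (haL _ _)) hg
  exact of_gv_li le_rfl hg' c hc

theorem bound_to_QB (ht : Gen ⊥ t) {d r N : ℕ} (h : Bound (Kt t) d r N) : Bound QB d r N := by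
  intro V hVr hV n a haV haL hali
  have hle : Submodule.span ℂ (range a) ≤ V := by
    rw [Submodule.span_le]
    rintro _ ⟨j, rfl⟩
    exact haV j
  exact h (Submodule.span ℂ (range a)) ((Submodule.finrank_mono hle).trans hVr)
    (no_new ht haL (fun c hc => hV c (hle hc))) n a (fun j => Submodule.subset_span ⟨j, rfl⟩)
    (fun j i => Lin_le (QB_le t) (haL j i)) (vec_disj ht a (fun j i => Lin_LF (haL j i)) hali)

end Pool.Agent.Helper78.RK
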