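import Mathlib
import Pool.Agent.Helper78.RK.Bound

/-!
# The hyperplane theorem
-/

set_option autoImplicit false

namespace Pool.Agent.Helper78.RK

open Module Set
open Pool.Agent.Helper78.SC Pool.Agent.Helper78.EC
open Pool.Agent.Helper78.EC.Disj

theorem countable_QB : Countable QB := by
  have h1 : {x : ℂ | IsAlgebraic ℚ x}.Countable := Algebraic.countable ℚ ℂ
  have h2 : ((QB : IntermediateField ℚ ℂ) : Set ℂ) = {x : ℂ | IsAlgebraic ℚ x} := by
    ext x
    exact mem_QB
  rw [← h2] at h1
  exact h1.to_subtype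

/-- proper subspaces without algebraic points lie in hyperplanes without algebraic points -/
theorem exists_normal {d : ℕ} (V : Submodule ℂ (Fin d → ℂ))
    (hV : ∀ c : Fin d → QB, (fun i => (c i : ℂ)) ∈ V → c = 0) :
    ∃ x : Fin d → ℂ, LinearIndependent QB x ∧ ∀ v ∈ V, ∑ i, x i * v i = 0 := by
  have := countable_QB
  let W := V.dualAnnihilator
  let b := finBasis ℂ W
  let e := finrank ℂ W
  let f : Fin e → (Fin d → ℂ) →ₗ[ℂ] ℂ := fun k => (b k : Module.Dual ℂ (Fin d → ℂ))
  have hf : ∀ v : Fin d → ℂ, (∀ k, f k v = 0) → v ∈ V := by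
    intro v hv
    rw [← Subspace.dualAnnihilator_dualCoannihilator_eq (W := V), Submodule.mem_dualCoannihilator]
    intro φ hφ
    have h1 := b.sum_repr ⟨φ, hφ⟩
    have h2 : φ = ∑ k, b.repr ⟨φ, hφ⟩ k • f k := by
      have h3 := congrArg (fun x : W => (x : Module.Dual ℂ (Fin d → ℂ))) h1
      change ((∑ k, b.repr ⟨φ, hφ⟩ k • b k : W) : Module.Dual ℂ (Fin d → ℂ)) = φ at h3
      rw [Submodule.coe_sum] at h3
      exact h3.symm
    rw [h2, LinearMap.sum_apply]
    exact Finset.sum_eq_zero (fun k _ => by rw [LinearMap.smul_apply, hv k, smul_zero])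
  have hfV : ∀ k, ∀ v ∈ V, f k v = 0 := fun k v hv =>
    (Submodule.mem_dualAnnihilator _).1 (b k).2 v hv
  let P : (Fin d → QB) → Polynomial ℂ := fun c =>
    ∑ k : Fin e, Polynomial.monomial (k : ℕ) (f k (fun i => (c i : ℂ)))
  have hP : ∀ c, P c = 0 → c = 0 := by
    intro c hc
    apply hV
    apply hf
    intro k
    have h1 := congrArg (fun p => Polynomial.coeff p (k : ℕ)) hc
    simp only [P, Polynomial.finsetSum_coeff, Polynomial.coeff_monomial, Polynomial.coeff_zero] at h1
    rw [Finset.sum_eq_single k] at h1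
    · rwa [if_pos rfl] at h1
    · intro k' _ hk'
      rw [if_neg (fun h => hk' (Fin.ext h))]
    · intro h
      exact absurd (Finset.mem_univ _) h
  have hbad : (⋃ c : Fin d → QB, ((P c).roots.toFinset : Set ℂ)).Countable :=
    countable_iUnion (fun c => (Finset.finite_toSet _).countable)
  obtain ⟨θ, hθ⟩ : ∃ θ : ℂ, θ ∉ (⋃ c : Fin d → QB, ((P c).roots.toFinset : Set ℂ)) := by
    by_contra hcon
    push Not at hcon
    have h1 : (⋃ c : Fin d → QB, ((P c).roots.toFinset : Set ℂ)) = univ := by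
      ext x
      exact ⟨fun _ => mem_univ _, fun _ => hcon x⟩
    rw [h1] at hbad
    exact not_countable_complex hbad
  let x : Fin d → ℂ := fun i => ∑ k : Fin e, θ ^ (k : ℕ) * f k (Pi.single i 1)
  have hx : ∀ v : Fin d → ℂ, ∑ i, x i * v i = ∑ k : Fin e, θ ^ (k : ℕ) * f k v := by
    intro v
    simp only [x, Finset.sum_mul]
    rw [Finset.sum_comm]
    refine Finset.sum_congr rfl (fun k _ => ?_)
    conv_rhs => rw [pi_eq_sum_univ' v, map_sum, Finset.mul_sum]
    refine Finset.sum_congr rfl (fun i _ => ?_)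
    rw [map_smul, smul_eq_mul]
    ring
  refine ⟨x, ?_, fun v hv => ?_⟩
  · rw [Fintype.linearIndependent_iff]
    intro c hc
    have h1 : ∑ k : Fin e, θ ^ (k : ℕ) * f k (fun i => (c i : ℂ)) = 0 := by
      rw [← hx, ← hc]
      refine Finset.sum_congr rfl (fun i _ => ?_)
      rw [Algebra.smul_def, mul_comm]
      rfl
    have h2 : c = 0 := by
      apply hP
      by_contra hne
      apply hθ
      rw [mem_iUnion]
      refine ⟨c, ?_⟩
      rw [Finset.mem_coe, Multiset.mem_toFinset, Polynomial.mem_roots hne, Polynomial.IsRoot,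
        Polynomial.eval_finsetSum, ← h1]
      refine Finset.sum_congr rfl (fun k _ => ?_)
      rw [Polynomial.eval_monomial, mul_comm]
    intro i
    rw [h2]
    rfl
  · rw [hx]
    exact Finset.sum_eq_zero (fun k _ => by rw [hfV k v hv, mul_zero])

/-- **The hyperplane theorem.** -/
theorem hyp_QB (d r : ℕ) : Bound QB d r (d * (d - 1)) := by
  intro V _ hV n a haV haL hali
  obtain ⟨x, hx, hxV⟩ := exists_normal V hV
  refine Pool.Agent.W254.HP.hyperplane d n x (fun i j => a j i) hx (fun i j => ?_)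
    (fun j => hxV _ (haV j)) hali
  have h1 : Lin QB ≤ Pool.Agent.H301R2.SSE.Lt := by
    apply Submodule.span_mono
    rintro w (hw | hw)
    · exact Or.inl hw
    · exact Or.inr (mem_QB.1 hw)
  exact h1 (haL j i)

end Pool.Agent.Helper78.RK
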